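import Pool.Agent.Q64.VP.Stm

/-!
# Project VP, lemma EX: potentials of measures with compact support in `Ω`
-/

open MeasureTheory Filter Topology Set Metric
open scoped ENNReal NNReal ContDiff Laplacian

namespace Pool.Agent.Q223.VP.EX

open Pool.Agent.Q64.VP

theorem kk_top (N : ℕ) (hN : 2 ≤ N) (D : ℝ) (hD : 0 < D) : kk N D 0 = ⊤ := by
  by_contra h
  have h1 : IntegrableOn (fun s : ℝ => s ^ (1 - (N : ℝ))) (Ioo 0 D) := by
    refine ⟨(measurable_id.pow_const _).aestronglyMeasurable, ?_⟩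
    rw [hasFiniteIntegral_iff_ofReal]
    · exact lt_top_iff_ne_top.2 h
    · filter_upwards [self_mem_ae_restrict measurableSet_Ioo] with s hs
      exact Real.rpow_nonneg hs.1.le _
  rw [intervalIntegral.integrableOn_Ioo_rpow_iff hD] at h1
  have : (2 : ℝ) ≤ N := by exact_mod_cast hN
  linarith

theorem lap_eq {N : ℕ} (ζ : E N → ℝ) (x : E N) :
    (Δ ζ) x = ∑ i, fderiv ℝ (fderiv ℝ ζ) x (EuclideanSpace.basisFun (Fin N) ℝ i)
      (EuclideanSpace.basisFun (Fin N) ℝ i) := by
  rw [InnerProductSpace.laplacian_eq_iteratedFDeriv_orthonormalBasis ζ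
    (EuclideanSpace.basisFun (Fin N) ℝ)]
  simp only [iteratedFDeriv_two_apply]
  rfl

theorem lap_cont {N : ℕ} (ζ : E N → ℝ) (hζ : ContDiff ℝ ∞ ζ) : Continuous (Δ ζ) := by
  have h1 : ContDiff ℝ ∞ (fderiv ℝ ζ) := hζ.fderiv_right (by simp)
  have h2 : Continuous (fderiv ℝ (fderiv ℝ ζ)) := h1.continuous_fderiv (by simp)
  have : (Δ ζ) = fun x => ∑ i, fderiv ℝ (fderiv ℝ ζ) x (EuclideanSpace.basisFun (Fin N) ℝ i)
    (EuclideanSpace.basisFun (Fin N) ℝ i) := funext (lap_eq ζ)
  rw [this]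
  exact continuous_finsetSum _ fun i _ => (h2.clm_apply continuous_const).clm_apply continuous_const

theorem prod_int {N : ℕ} (k : E N → ℝ) (hkm : Measurable k) (hk : Integrable k)
    (ν : Measure (E N)) [IsFiniteMeasure ν] :
    Integrable (fun p : E N × E N => k (p.1 - p.2)) (volume.prod ν) := by
  have hm : Measurable (fun p : E N × E N => k (p.1 - p.2)) :=
    hkm.comp (measurable_fst.sub measurable_snd)
  rw [integrable_prod_iff' hm.aestronglyMeasurable]
  constructor
  · exact ae_of_all _ fun y => hk.comp_sub_right y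
  · have h1 : (fun y : E N => ∫ x, ‖k (x - y)‖) = fun _ => ∫ x, ‖k x‖ := by
      funext y
      exact integral_sub_right_eq_self (fun x => ‖k x‖) y
    simp only [h1]
    exact integrable_const _

theorem prod_int_mul {N : ℕ} (k : E N → ℝ) (hkm : Measurable k) (hk : Integrable k)
    (ν : Measure (E N)) [IsFiniteMeasure ν] (Ω K : Set (E N)) (hΩ : Bornology.IsBounded Ω)
    (hK : ∀ᵐ y ∂ν, y ∈ K) (h0 : ∀ y ∈ K, ∀ x, x ∉ Ω → k (x - y) = 0) (g : E N → ℝ)
    (hg : Continuous g) :
    Integrable (fun p : E N × E N => k (p.1 - p.2) * g p.1) (volume.prod ν) := by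
  obtain ⟨B, hB⟩ := (hΩ.isCompact_closure).exists_bound_of_continuousOn hg.continuousOn
  refine Integrable.mono' ((prod_int k hkm hk ν).norm.const_mul B)
    ((hkm.comp (measurable_fst.sub measurable_snd)).mul
      (hg.measurable.comp measurable_fst)).aestronglyMeasurable ?_
  have h1 : ∀ᵐ p : E N × E N ∂((volume : Measure (E N)).prod ν), p.2 ∈ K :=
    Measure.quasiMeasurePreserving_snd.ae hK
  filter_upwards [h1] with p hp
  rw [norm_mul, mul_comm]
  by_cases hx : p.1 ∈ Ω
  · exact mul_le_mul_of_nonneg_right (hB _ (subset_closure hx)) (norm_nonneg _)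
  · rw [h0 p.2 hp p.1 hx]
    simp

theorem fub {N : ℕ} (k : E N → ℝ) (hkm : Measurable k) (hk : Integrable k)
    (ν : Measure (E N)) [IsFiniteMeasure ν] (Ω K : Set (E N)) (hΩ : Bornology.IsBounded Ω)
    (hK : ∀ᵐ y ∂ν, y ∈ K) (h0 : ∀ y ∈ K, ∀ x, x ∉ Ω → k (x - y) = 0) (g : E N → ℝ)
    (hg : Continuous g) :
    ∫ x in Ω, (∫ y, k (x - y) ∂ν) * g x = ∫ y, (∫ x, k (x - y) * g x) ∂ν := by
  have h2 : ∫ x in Ω, (∫ y, k (x - y) ∂ν) * g x = ∫ x, (∫ y, k (x - y) ∂ν) * g x := by
    apply setIntegral_eq_integral_of_forall_compl_eq_zero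
    intro x hx
    have h3 : ∫ y, k (x - y) ∂ν = 0 := by
      rw [integral_eq_zero_of_ae]
      filter_upwards [hK] with y hy
      exact h0 y hy x hx
    rw [h3, zero_mul]
  rw [h2]
  have h4 := integral_integral_swap (f := fun x y : E N => k (x - y) * g x)
    (prod_int_mul k hkm hk ν Ω K hΩ hK h0 g hg)
  rw [← h4]
  apply integral_congr_ae
  filter_upwards with x
  rw [integral_mul_const]

theorem t_EX (hHB : S_HB) (hTON : S_TON) : S_EX := by
  intro N c hN hc hCK Ω K D ν hΩ hΩb hK hKΩ hD hν hνK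
  obtain ⟨δ, hδ, hδΩ⟩ := hK.exists_cthickening_subset_open hΩ hKΩ
  have hρ : 0 < min δ D := lt_min hδ hD
  obtain ⟨k, m, M, hkm, hki, hmc, hkM, hsup, hup, -, hid⟩ := hCK (min δ D) hρ
  have hKae : ∀ᵐ y ∂ν, y ∈ K := by
    rw [ae_iff]
    exact hνK
  have hfar : ∀ y ∈ K, ∀ x, x ∉ Ω → min δ D ≤ ‖x - y‖ := by
    intro y hy x hx
    by_contra h
    push Not at h
    apply hx
    apply hδΩ
    apply mem_cthickening_of_dist_le x y δ K hy
    rw [dist_eq_norm]
    exact h.le.trans (min_le_left _ _)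
  have hk0 : ∀ y ∈ K, ∀ x, x ∉ Ω → k (x - y) = 0 := fun y hy x hx => (hsup _ (hfar y hy x hx)).1
  have hm0 : ∀ y ∈ K, ∀ x, x ∉ Ω → m (x - y) = 0 := fun y hy x hx => (hsup _ (hfar y hy x hx)).2
  have hmi : Integrable m := by
    apply hmc.integrable_of_hasCompactSupport
    apply HasCompactSupport.intro (isCompact_closedBall (0 : E N) (min δ D))
    intro x hx
    rw [mem_closedBall, dist_zero_right, not_le] at hx
    exact (hsup x hx.le).2
  have hM : 0 ≤ M := (abs_nonneg _).trans (hkM 0).2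
  -- the potentials
  have hVmeas : Measurable (fun x : E N => c⁻¹ * ∫ y, m (x - y) ∂ν) := by
    apply Measurable.const_mul
    have h1 : StronglyMeasurable (fun p : E N × E N => m (p.1 - p.2)) :=
      (hmc.comp (continuous_fst.sub continuous_snd)).stronglyMeasurable
    exact (h1.integral_prod_right (ν := ν)).measurable
  have hVb : ∀ x : E N, |c⁻¹ * ∫ y, m (x - y) ∂ν| ≤ c⁻¹ * (M * ν.real univ) := by
    intro x
    rw [abs_mul, abs_of_pos (inv_pos.2 hc)]
    apply mul_le_mul_of_nonneg_left _ (inv_pos.2 hc).le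
    have := norm_integral_le_of_norm_le_const (μ := ν) (f := fun y => m (x - y)) (C := M)
      (ae_of_all _ fun y => (hkM (x - y)).2)
    exact this
  obtain ⟨v, M', hvm, hvb, hv⟩ := hHB N (by omega) Ω (fun x => c⁻¹ * ∫ y, m (x - y) ∂ν)
    (c⁻¹ * (M * ν.real univ)) hΩ hΩb hVmeas hVb
  have hM' : 0 ≤ M' := (abs_nonneg _).trans (hvb 0)
  have hU : Integrable (fun x : E N => ∫ y, k (x - y) ∂ν) :=
    (prod_int k hkm hki ν).integral_prod_left
  have hΩfin : volume Ω ≠ ⊤ := hΩb.measure_lt_top.ne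
  have hvi : IntegrableOn v Ω := by
    refine Measure.integrableOn_of_bounded (M := M') hΩfin hvm.aestronglyMeasurable ?_
    exact ae_of_all _ fun x => hvb x
  refine ⟨fun x => c⁻¹ * (∫ y, k (x - y) ∂ν) + v x, max M' (c * M'), ?_, ?_, ?_⟩
  · exact (hU.integrableOn.const_mul c⁻¹).add hvi
  · intro ζ hζ
    have hζc : Continuous ζ := hζ.1.continuous
    have hLc : Continuous (Δ ζ) := lap_cont ζ hζ.1
    obtain ⟨B, hB⟩ := (hΩb.isCompact_closure).exists_bound_of_continuousOn hLc.continuousOn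
    have hi1 : IntegrableOn (fun x => (∫ y, k (x - y) ∂ν) * (Δ ζ) x) Ω := by
      refine Integrable.mono' (hU.integrableOn.norm.const_mul B)
        (hU.integrableOn.aestronglyMeasurable.mul hLc.aestronglyMeasurable) ?_
      filter_upwards [self_mem_ae_restrict hΩ.measurableSet] with x hx
      rw [norm_mul, mul_comm]
      exact mul_le_mul_of_nonneg_right (hB _ (subset_closure hx)) (norm_nonneg _)
    have hi2 : IntegrableOn (fun x => v x * (Δ ζ) x) Ω := by
      refine Integrable.mono' (hvi.norm.const_mul B)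
        (hvi.aestronglyMeasurable.mul hLc.aestronglyMeasurable) ?_
      filter_upwards [self_mem_ae_restrict hΩ.measurableSet] with x hx
      rw [norm_mul, mul_comm]
      exact mul_le_mul_of_nonneg_right (hB _ (subset_closure hx)) (norm_nonneg _)
    have hζi : Integrable ζ ν := by
      have h1 : ν.restrict K = ν := Measure.restrict_eq_self_of_ae_mem hKae
      rw [← h1]
      exact hζc.continuousOn.integrableOn_compact hK
    have e1 : ∫ x in Ω, (∫ y, k (x - y) ∂ν) * (Δ ζ) x =
        -c * (∫ y, ζ y ∂ν) + ∫ x in Ω, (∫ y, m (x - y) ∂ν) * ζ x := by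
      rw [fub k hkm hki ν Ω K hΩb hKae hk0 _ hLc, fub m hmc.measurable hmi ν Ω K hΩb hKae hm0 _ hζc]
      have h2 : ∀ y : E N, ∫ x, k (x - y) * (Δ ζ) x = -c * ζ y + ∫ x, m (x - y) * ζ x :=
        fun y => hid ζ hζ.1 y
      simp only [h2]
      rw [integral_add (hζi.const_mul _)
        (prod_int_mul m hmc.measurable hmi ν Ω K hΩb hKae hm0 _ hζc).integral_prod_right,
        integral_const_mul]
    have e2 : ∫ x in Ω, (c⁻¹ * (∫ y, k (x - y) ∂ν) + v x) * (Δ ζ) x =
        c⁻¹ * (∫ x in Ω, (∫ y, k (x - y) ∂ν) * (Δ ζ) x) + ∫ x in Ω, v x * (Δ ζ) x := by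
      rw [← integral_const_mul, ← integral_add (hi1.const_mul _) hi2]
      apply integral_congr_ae
      filter_upwards with x
      ring
    have e3 := hv ζ hζ
    have e4 : ∫ x in Ω, (c⁻¹ * ∫ y, m (x - y) ∂ν) * ζ x =
        c⁻¹ * ∫ x in Ω, (∫ y, m (x - y) ∂ν) * ζ x := by
      rw [← integral_const_mul]
      apply integral_congr_ae
      filter_upwards with x
      ring
    rw [e4] at e3
    rw [e2, e1]
    have hcc : c⁻¹ * c = 1 := inv_mul_cancel₀ hc.ne'
    linear_combination e3 + (∫ y, ζ y ∂ν) * hcc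
  · filter_upwards with x
    have h1 : 0 ≤ ∫ y, k (x - y) ∂ν := integral_nonneg fun y => (hkM _).1
    have h2 := abs_le.1 (hvb x)
    constructor
    · have h3 : 0 ≤ c⁻¹ * ∫ y, k (x - y) ∂ν := mul_nonneg (inv_pos.2 hc).le h1
      have := le_max_left M' (c * M')
      linarith [h2.1]
    · have h3 : c * (c⁻¹ * (∫ y, k (x - y) ∂ν) + v x) = (∫ y, k (x - y) ∂ν) + c * v x := by
        field_simp
      rw [h3]
      refine ENNReal.ofReal_add_le.trans (add_le_add ?_ ?_)
      · have h5 : AEStronglyMeasurable (fun y : E N => k (x - y)) ν :=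
          (hkm.comp (measurable_const.sub measurable_id)).aestronglyMeasurable
        rw [(hTON N D ν hν).1 x, integral_eq_lintegral_of_nonneg_ae
          (ae_of_all _ fun y => (hkM _).1) h5]
        refine ENNReal.ofReal_toReal_le.trans (lintegral_mono fun y => ?_)
        rcases eq_or_ne (x - y) 0 with h4 | h4
        · rw [h4, norm_zero, kk_top N hN D hD]
          exact le_top
        · exact hup D (min_le_right _ _) _ h4
      · apply ENNReal.ofReal_le_ofReal
        refine le_trans ?_ (le_max_right _ _)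
        exact mul_le_mul_of_nonneg_left h2.2 hc.le

end Pool.Agent.Q223.VP.EX
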