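import Pool.Agent.Q223.VP.NEAR

/-!
# Project VP, lemma INT: the potential is integrable
-/

open MeasureTheory Filter Topology Set Metric
open scoped ENNReal NNReal ContDiff Laplacian

namespace Pool.Agent.Q223.VP

open Pool.Agent.Q64.VP

theorem kk_zero (N : ℕ) (D t : ℝ) (h : D ≤ t) : kk N D t = 0 := by
  unfold kk
  rw [Ioo_eq_empty (not_lt.2 h)]
  simp

theorem P_vol_fin {N : ℕ} (D : ℝ) (S : Set (E N)) (a : E N) :
    P D (volume.restrict S) a ≤ volume (ball (0 : E N) 1) * ENNReal.ofReal D * ENNReal.ofReal D := by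
  unfold P
  calc ∫⁻ s in Ioo 0 D, (volume.restrict S) (closedBall a s) *
        ENNReal.ofReal (s ^ (1 - (N : ℝ)))
      ≤ ∫⁻ _ in Ioo 0 D, volume (ball (0 : E N) 1) * ENNReal.ofReal D := by
        apply setLIntegral_mono' measurableSet_Ioo
        intro s hs
        calc (volume.restrict S) (closedBall a s) * ENNReal.ofReal (s ^ (1 - (N : ℝ)))
            ≤ volume (closedBall a s) * ENNReal.ofReal (s ^ (1 - (N : ℝ))) :=
              mul_le_mul' (Measure.restrict_apply_le _ _) le_rfl
          _ = volume (ball (0 : E N) 1) * ENNReal.ofReal s := by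
              rw [Measure.addHaar_closedBall _ _ hs.1.le, finrank_euclideanSpace_fin,
                mul_comm (ENNReal.ofReal (s ^ N)), mul_assoc,
                ← ENNReal.ofReal_mul (pow_nonneg hs.1.le _)]
              congr 2
              rw [← Real.rpow_natCast, ← Real.rpow_add hs.1]
              have : (N : ℝ) + (1 - N) = 1 := by ring
              rw [this, Real.rpow_one]
          _ ≤ volume (ball (0 : E N) 1) * ENNReal.ofReal D :=
              mul_le_mul' le_rfl (ENNReal.ofReal_le_ofReal hs.2.le)
    _ = _ := by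
        rw [setLIntegral_const, Real.volume_Ioo, sub_zero]

theorem t_INT (hTON : S_TON) : S_INT := by
  intro N _ D σ hσ
  have hfin : volume (ball (0 : E N) 1) * ENNReal.ofReal D * ENNReal.ofReal D ≠ ⊤ :=
    ENNReal.mul_ne_top (ENNReal.mul_ne_top measure_ball_lt_top.ne ENNReal.ofReal_ne_top)
      ENNReal.ofReal_ne_top
  have h1 : ∀ z, P D σ z = ∫⁻ a, kk N D ‖z - a‖ ∂σ := (hTON N D σ hσ).1
  have h2 : ∀ a : E N, ∫⁻ z, kk N D ‖z - a‖ ≤
      volume (ball (0 : E N) 1) * ENNReal.ofReal D * ENNReal.ofReal D := by
    intro a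
    have hf : IsFiniteMeasure ((volume : Measure (E N)).restrict (ball a D)) :=
      ⟨by rw [Measure.restrict_apply_univ]; exact measure_ball_lt_top⟩
    refine le_trans (le_of_eq ?_) (P_vol_fin D (ball a D) a)
    rw [(hTON N D (volume.restrict (ball a D)) hf).1 a, ← lintegral_indicator measurableSet_ball]
    apply lintegral_congr
    intro z
    by_cases hz : z ∈ ball a D
    · rw [indicator_of_mem hz, norm_sub_rev]
    · rw [indicator_of_notMem hz]
      apply kk_zero
      rw [mem_ball, not_lt, dist_eq_norm] at hz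
      exact hz
  simp_rw [h1]
  rw [lintegral_lintegral_swap]
  · refine lt_of_le_of_lt (lintegral_mono h2) ?_
    rw [lintegral_const]
    exact ENNReal.mul_lt_top hfin.lt_top (measure_lt_top _ _)
  · apply Measurable.aemeasurable
    have h3 : Measurable (fun q : E N × E N => ‖q.1 - q.2‖) :=
      (continuous_fst.sub continuous_snd).norm.measurable
    exact (measurable_kk N D).comp h3

end Pool.Agent.Q223.VP
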