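import Pool.Agent.Q64.VP.Stm

/-!
# Project VP, lemma NEAR (one half of the ball)
-/

open MeasureTheory Filter Topology Set Metric
open scoped ENNReal NNReal ContDiff Laplacian

namespace Pool.Agent.Q223.VP

open Pool.Agent.Q64.VP

/-- substitution `t = c s` -/
theorem comp_mul (c : ℝ) (hc : 0 < c) (D : ℝ) (h : ℝ → ℝ≥0∞) :
    ∫⁻ s in Ioo 0 D, h (c * s) = ENNReal.ofReal |c⁻¹| * ∫⁻ t in Ioo 0 (c * D), h t := by
  have h1 : MeasurableEmbedding (fun s : ℝ => c * s) :=
    (Homeomorph.mulLeft₀ c hc.ne').measurableEmbedding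
  have h2 := Real.map_volume_mul_left (a := c) hc.ne'
  have h3 := h1.lintegral_map (μ := volume) ((Ioo 0 (c * D)).indicator h)
  rw [← lintegral_indicator measurableSet_Ioo, ← lintegral_indicator measurableSet_Ioo]
  calc ∫⁻ s, (Ioo 0 D).indicator (fun s => h (c * s)) s
      = ∫⁻ s, (Ioo 0 (c * D)).indicator h (c * s) := by
        apply lintegral_congr
        intro s
        by_cases hs : s ∈ Ioo 0 D
        · have hs2 : c * s ∈ Ioo 0 (c * D) :=
            ⟨mul_pos hc hs.1, mul_lt_mul_of_pos_left hs.2 hc⟩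
          rw [indicator_of_mem hs, indicator_of_mem hs2]
        · have hs2 : c * s ∉ Ioo 0 (c * D) := by
            intro h4
            exact hs ⟨(mul_pos_iff_of_pos_left hc).1 h4.1, lt_of_mul_lt_mul_left h4.2 hc.le⟩
          rw [indicator_of_notMem hs, indicator_of_notMem hs2]
    _ = ∫⁻ t, (Ioo 0 (c * D)).indicator h t ∂(Measure.map (fun s : ℝ => c * s) volume) := h3.symm
    _ = _ := by
        rw [h2, lintegral_smul_measure, smul_eq_mul]

theorem w_anti (N : ℕ) (hN : 1 ≤ N) (a b : ℝ) (ha : 0 < a) (hab : a ≤ b) :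
    ENNReal.ofReal (b ^ (1 - (N : ℝ))) ≤ ENNReal.ofReal (a ^ (1 - (N : ℝ))) := by
  apply ENNReal.ofReal_le_ofReal
  apply Real.rpow_le_rpow_of_nonpos ha hab
  have : (1 : ℝ) ≤ N := by exact_mod_cast hN
  linarith

theorem measurable_kk (N : ℕ) (D : ℝ) : Measurable (kk N D) := by
  apply Antitone.measurable
  intro t t' h
  unfold kk
  exact lintegral_mono_set (Ioo_subset_Ioo_left h)

theorem swap (hTON : S_TON) {N : ℕ} (D : ℝ) (σ : Measure (E N)) (hσ : IsFiniteMeasure σ) (y : E N)
    (ρ : ℝ) :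
    ∫⁻ z in ball y ρ, P D σ z = ∫⁻ a, P D (volume.restrict (ball y ρ)) a ∂σ := by
  have hf : IsFiniteMeasure ((volume : Measure (E N)).restrict (ball y ρ)) :=
    ⟨by rw [Measure.restrict_apply_univ]; exact measure_ball_lt_top⟩
  have h1 : ∀ z, P D σ z = ∫⁻ a, kk N D ‖z - a‖ ∂σ := (hTON N D σ hσ).1
  have h2 : ∀ a, P D (volume.restrict (ball y ρ)) a =
      ∫⁻ z, kk N D ‖a - z‖ ∂(volume.restrict (ball y ρ)) :=
    (hTON N D (volume.restrict (ball y ρ)) hf).1
  simp_rw [h1, h2]
  rw [lintegral_lintegral_swap]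
  · apply lintegral_congr
    intro a
    apply lintegral_congr
    intro z
    rw [norm_sub_rev]
  · apply Measurable.aemeasurable
    have h3 : Measurable (fun q : E N × E N => ‖q.1 - q.2‖) :=
      (continuous_fst.sub continuous_snd).norm.measurable
    exact (measurable_kk N D).comp h3

theorem near_int (hTON : S_TON) {N : ℕ} (F : Measure (E N)) (hF : IsFiniteMeasure F)
    (y : E N) (r η : ℝ) (hr : 0 < r) (hη : η ≤ 1 / 4) :
    ∫⁻ z in ball y (η * r), P (r / 2) F z ≤ F (closedBall y r) *
      (volume (ball (0 : E N) 1) * ENNReal.ofReal (r ^ 2 / 4)) := by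
  rw [swap hTON (r / 2) F hF y (η * r)]
  have hK : ∀ a, P (r / 2) (volume.restrict (ball y (η * r))) a ≤
      (closedBall y r).indicator (fun _ => volume (ball (0 : E N) 1) *
        ENNReal.ofReal (r ^ 2 / 4)) a := by
    intro a
    by_cases ha : a ∈ closedBall y r
    · rw [indicator_of_mem ha]
      unfold P
      calc ∫⁻ s in Ioo 0 (r / 2), (volume.restrict (ball y (η * r))) (closedBall a s) *
            ENNReal.ofReal (s ^ (1 - (N : ℝ)))
          ≤ ∫⁻ _ in Ioo 0 (r / 2), volume (ball (0 : E N) 1) * ENNReal.ofReal (r / 2) := by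
            apply setLIntegral_mono' measurableSet_Ioo
            intro s hs
            calc (volume.restrict (ball y (η * r))) (closedBall a s) *
                  ENNReal.ofReal (s ^ (1 - (N : ℝ)))
                ≤ volume (closedBall a s) * ENNReal.ofReal (s ^ (1 - (N : ℝ))) :=
                  mul_le_mul' (Measure.restrict_apply_le _ _) le_rfl
              _ = volume (ball (0 : E N) 1) * ENNReal.ofReal s := by
                  rw [Measure.addHaar_closedBall _ _ hs.1.le, finrank_euclideanSpace_fin,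
                    mul_comm (ENNReal.ofReal (s ^ N)), mul_assoc,
                    ← ENNReal.ofReal_mul (pow_nonneg hs.1.le _)]
                  congr 2
                  rw [← Real.rpow_natCast, ← Real.rpow_add hs.1]
                  have : (N : ℝ) + (1 - N) = 1 := by ring
                  rw [this, Real.rpow_one]
              _ ≤ volume (ball (0 : E N) 1) * ENNReal.ofReal (r / 2) :=
                  mul_le_mul' le_rfl (ENNReal.ofReal_le_ofReal hs.2.le)
        _ = volume (ball (0 : E N) 1) * ENNReal.ofReal (r ^ 2 / 4) := by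
            rw [setLIntegral_const, Real.volume_Ioo, mul_assoc,
              ← ENNReal.ofReal_mul (by positivity)]
            congr 2
            ring
    · rw [indicator_of_notMem ha]
      apply le_of_eq
      unfold P
      rw [setLIntegral_congr_fun measurableSet_Ioo (g := fun _ => 0)]
      · simp
      · intro s hs
        have h1 : closedBall a s ∩ ball y (η * r) = ∅ := by
          rw [eq_empty_iff_forall_notMem]
          rintro z ⟨hz1, hz2⟩
          apply ha
          rw [mem_closedBall] at hz1 ⊢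
          rw [mem_ball] at hz2
          have h2 := dist_triangle a z y
          rw [dist_comm a z] at h2
          have h3 : η * r ≤ 1 / 4 * r := mul_le_mul_of_nonneg_right hη hr.le
          linarith [hs.2]
        show (volume.restrict (ball y (η * r))) (closedBall a s) *
            ENNReal.ofReal (s ^ (1 - (N : ℝ))) = 0
        rw [Measure.restrict_apply measurableSet_closedBall, h1, measure_empty, zero_mul]
  refine (lintegral_mono hK).trans ?_
  rw [lintegral_indicator_const measurableSet_closedBall, mul_comm]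

/-- the constant of the far part -/
noncomputable def K1 (N : ℕ) : ℝ := |(11 : ℝ)⁻¹| * (1 / 11 : ℝ) ^ (1 - (N : ℝ))

theorem K1_pos (N : ℕ) : 0 < K1 N := by
  unfold K1
  positivity

theorem far_le {N : ℕ} (hN : 1 ≤ N) (D κ ρ r : ℝ) (μ F : Measure (E N)) (x z : E N)
    (hr : 0 < r) (hρ : 0 < ρ) (hρD : 11 * (ρ / 4) ≤ D) (hzx : dist z x ≤ 5 / 4 * r)
    (hF : ∀ s : ℝ, 0 < s → s < ρ →
      F (closedBall x s) ≤ ENNReal.ofReal κ * μ (closedBall x (2 * s))) :
    ∫⁻ s in Ico (r / 2) D, F (closedBall z s) * ENNReal.ofReal (s ^ (1 - (N : ℝ))) ≤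
      ENNReal.ofReal κ * (ENNReal.ofReal (K1 N) * P D μ z) +
        F univ * ENNReal.ofReal ((ρ / 4) ^ (1 - (N : ℝ))) * ENNReal.ofReal (D - ρ / 4) := by
  have h1 : Ico (r / 2) D ⊆ Ico (r / 2) (ρ / 4) ∪ Ico (ρ / 4) D := by
    intro t ht
    rcases lt_or_ge t (ρ / 4) with h | h
    · exact Or.inl ⟨ht.1, h⟩
    · exact Or.inr ⟨h, ht.2⟩
  refine (lintegral_mono_set h1).trans ((lintegral_union_le _ _ _).trans ?_)
  apply add_le_add
  · calc ∫⁻ s in Ico (r / 2) (ρ / 4), F (closedBall z s) * ENNReal.ofReal (s ^ (1 - (N : ℝ)))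
        ≤ ∫⁻ s in Ico (r / 2) (ρ / 4), ENNReal.ofReal κ *
            (μ (closedBall z (11 * s)) * ENNReal.ofReal ((11 * s / 11) ^ (1 - (N : ℝ)))) := by
          apply setLIntegral_mono' measurableSet_Ico
          intro s hs
          have hs0 : 0 < s := lt_of_lt_of_le (by linarith) hs.1
          have hrs : r ≤ 2 * s := by linarith [hs.1]
          have h2 : closedBall z s ⊆ closedBall x (4 * s) := by
            intro q hq
            rw [mem_closedBall] at hq ⊢
            have := dist_triangle q z x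
            linarith
          have h3 : closedBall x (2 * (4 * s)) ⊆ closedBall z (11 * s) := by
            intro q hq
            rw [mem_closedBall] at hq ⊢
            have := dist_triangle q x z
            rw [dist_comm x z] at this
            linarith
          have h4 : 11 * s / 11 = s := by ring
          rw [h4, ← mul_assoc]
          apply mul_le_mul' _ le_rfl
          refine (measure_mono h2).trans ((hF (4 * s) (by linarith) (by linarith [hs.2])).trans ?_)
          exact mul_le_mul' le_rfl (measure_mono h3)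
      _ ≤ ∫⁻ s in Ioo 0 (ρ / 4), ENNReal.ofReal κ *
            (μ (closedBall z (11 * s)) * ENNReal.ofReal ((11 * s / 11) ^ (1 - (N : ℝ)))) := by
          apply lintegral_mono_set
          intro s hs
          exact ⟨lt_of_lt_of_le (by linarith) hs.1, hs.2⟩
      _ = ENNReal.ofReal κ * ∫⁻ s in Ioo 0 (ρ / 4),
            (μ (closedBall z (11 * s)) * ENNReal.ofReal ((11 * s / 11) ^ (1 - (N : ℝ)))) :=
          lintegral_const_mul' _ _ ENNReal.ofReal_ne_top
      _ = ENNReal.ofReal κ * (ENNReal.ofReal |(11 : ℝ)⁻¹| * ∫⁻ t in Ioo 0 (11 * (ρ / 4)),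
            (μ (closedBall z t) * ENNReal.ofReal ((t / 11) ^ (1 - (N : ℝ))))) := by
          rw [comp_mul 11 (by norm_num) (ρ / 4) (fun t => μ (closedBall z t) *
            ENNReal.ofReal ((t / 11) ^ (1 - (N : ℝ))))]
      _ ≤ ENNReal.ofReal κ * (ENNReal.ofReal |(11 : ℝ)⁻¹| * ∫⁻ t in Ioo 0 D,
            (μ (closedBall z t) * ENNReal.ofReal ((t / 11) ^ (1 - (N : ℝ))))) := by
          apply mul_le_mul' le_rfl
          apply mul_le_mul' le_rfl
          exact lintegral_mono_set (Ioo_subset_Ioo_right hρD)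
      _ = ENNReal.ofReal κ * (ENNReal.ofReal |(11 : ℝ)⁻¹| * ∫⁻ t in Ioo 0 D,
            (μ (closedBall z t) * ENNReal.ofReal (t ^ (1 - (N : ℝ)))) *
              ENNReal.ofReal ((1 / 11 : ℝ) ^ (1 - (N : ℝ)))) := by
          congr 2
          apply setLIntegral_congr_fun measurableSet_Ioo
          intro t ht
          show μ (closedBall z t) * ENNReal.ofReal ((t / 11) ^ (1 - (N : ℝ))) =
            (μ (closedBall z t) * ENNReal.ofReal (t ^ (1 - (N : ℝ)))) *
              ENNReal.ofReal ((1 / 11 : ℝ) ^ (1 - (N : ℝ)))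
          rw [mul_assoc, ← ENNReal.ofReal_mul (Real.rpow_nonneg ht.1.le _),
            ← Real.mul_rpow ht.1.le (by norm_num)]
          have h2 : t * (1 / 11) = t / 11 := by ring
          rw [h2]
      _ = ENNReal.ofReal κ * (ENNReal.ofReal (K1 N) * P D μ z) := by
          rw [lintegral_mul_const' _ _ ENNReal.ofReal_ne_top]
          unfold K1 P
          rw [ENNReal.ofReal_mul (abs_nonneg _)]
          ring
  · calc ∫⁻ t in Ico (ρ / 4) D, F (closedBall z t) * ENNReal.ofReal (t ^ (1 - (N : ℝ)))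
        ≤ ∫⁻ _ in Ico (ρ / 4) D, F univ * ENNReal.ofReal ((ρ / 4) ^ (1 - (N : ℝ))) := by
          apply setLIntegral_mono' measurableSet_Ico
          intro t ht
          exact mul_le_mul' (measure_mono (subset_univ _)) (w_anti N hN _ _ (by linarith) ht.1)
      _ = _ := by
          rw [setLIntegral_const, Real.volume_Ico]

/-- lower bound of the potential of `μ` -/
theorem low {N : ℕ} (hN : 1 ≤ N) (D r : ℝ) (μ : Measure (E N)) (x z : E N) (hr : 0 < r)
    (hrD : 12 * r ≤ D) (hzx : dist z x ≤ 5 / 4 * r) :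
    μ (closedBall x (4 * r)) * ENNReal.ofReal ((12 * r) ^ (1 - (N : ℝ))) * ENNReal.ofReal (6 * r) ≤
      P D μ z := by
  unfold P
  calc μ (closedBall x (4 * r)) * ENNReal.ofReal ((12 * r) ^ (1 - (N : ℝ))) * ENNReal.ofReal (6 * r)
      = ∫⁻ _ in Ioo (6 * r) (12 * r), μ (closedBall x (4 * r)) *
          ENNReal.ofReal ((12 * r) ^ (1 - (N : ℝ))) := by
        rw [setLIntegral_const, Real.volume_Ioo]
        congr 2
        ring
    _ ≤ ∫⁻ s in Ioo (6 * r) (12 * r), μ (closedBall z s) * ENNReal.ofReal (s ^ (1 - (N : ℝ))) := by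
        apply setLIntegral_mono' measurableSet_Ioo
        intro s hs
        apply mul_le_mul'
        · apply measure_mono
          intro q hq
          rw [mem_closedBall] at hq ⊢
          have := dist_triangle q x z
          rw [dist_comm x z] at this
          linarith [hs.1]
        · exact w_anti N hN _ _ (by linarith [hs.1]) hs.2.le
    _ ≤ _ := by
        apply lintegral_mono_set
        intro s hs
        exact ⟨by linarith [hs.1], by linarith [hs.2]⟩

/-- Markov -/
theorem markov {N : ℕ} (y : E N) (ρ : ℝ) (h : E N → ℝ≥0∞) (hh : Measurable h) (T : ℝ≥0∞)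
    (hT : T ≠ ⊤) (hI : 2 * ∫⁻ z in ball y ρ, h z ≤ T * volume (ball y ρ)) :
    volume (ball y ρ) ≤ 2 * volume {z ∈ ball y ρ | h z ≤ T} := by
  have hm : MeasurableSet {z | T < h z} := measurableSet_lt measurable_const hh
  have hbad : 2 * volume (ball y ρ ∩ {z | T < h z}) ≤ volume (ball y ρ) := by
    have h0 : volume (ball y ρ ∩ {z | T < h z}) = (volume.restrict (ball y ρ)) {z | T < h z} := by
      rw [Measure.restrict_apply hm, inter_comm]
    rcases eq_or_ne T 0 with h1 | h1
    · rw [h1, zero_mul] at hI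
      have h2 : ∫⁻ z in ball y ρ, h z = 0 := by
        have h3 := le_antisymm hI zero_le
        rcases mul_eq_zero.1 h3 with h4 | h4
        · norm_num at h4
        · exact h4
      rw [lintegral_eq_zero_iff hh] at h2
      have h3 : (volume.restrict (ball y ρ)) {z | T < h z} = 0 := by
        have h4 := ae_iff.1 h2
        refine measure_mono_null ?_ h4
        intro z hz
        have hz' : T < h z := by simpa using hz
        rw [h1] at hz'
        simpa using hz'.ne'
      rw [h0, h3, mul_zero]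
      exact zero_le
    · have h2 := mul_meas_ge_le_lintegral (μ := volume.restrict (ball y ρ)) hh T
      have h3 : T * (2 * volume (ball y ρ ∩ {z | T < h z})) ≤ T * volume (ball y ρ) := by
        refine le_trans ?_ hI
        calc T * (2 * volume (ball y ρ ∩ {z | T < h z}))
            = 2 * (T * (volume.restrict (ball y ρ)) {z | T < h z}) := by rw [h0]; ring
          _ ≤ 2 * (T * (volume.restrict (ball y ρ)) {z | T ≤ h z}) := by
              apply mul_le_mul' le_rfl
              apply mul_le_mul' le_rfl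
              apply measure_mono
              intro z hz
              have hz' : T < h z := by simpa using hz
              simpa using hz'.le
          _ ≤ _ := mul_le_mul' le_rfl h2
      exact (ENNReal.mul_le_mul_iff_right h1 hT).1 h3
  have hfin : volume (ball y ρ) ≠ ⊤ := measure_ball_lt_top.ne
  have hdec : volume (ball y ρ) = volume (ball y ρ ∩ {z | T < h z}) +
      volume {z ∈ ball y ρ | h z ≤ T} := by
    rw [← measure_inter_add_sdiff (ball y ρ) hm]
    congr 2
    ext z
    simp only [Set.mem_sdiff, Set.mem_ofPred_eq, not_lt]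
  have h5 : volume (ball y ρ) + volume (ball y ρ) ≤
      volume (ball y ρ) + 2 * volume {z ∈ ball y ρ | h z ≤ T} := by
    calc volume (ball y ρ) + volume (ball y ρ) = 2 * volume (ball y ρ) := by ring
      _ = 2 * volume (ball y ρ ∩ {z | T < h z}) + 2 * volume {z ∈ ball y ρ | h z ≤ T} := by
          rw [← mul_add, ← hdec]
      _ ≤ _ := add_le_add hbad le_rfl
  exact (ENNReal.add_le_add_iff_left hfin).1 h5

/-- the constant of the near part -/
noncomputable def C2 (N : ℕ) (η : ℝ) : ℝ := (1 / 4) / ((12 : ℝ) ^ (1 - (N : ℝ)) * 6 * η ^ N)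

theorem C2_pos (N : ℕ) (η : ℝ) (hη : 0 < η) : 0 < C2 N η := by
  unfold C2
  positivity

theorem C2_eq (N : ℕ) (η r : ℝ) (hη : 0 < η) (hr : 0 < r) :
    C2 N η * ((12 * r) ^ (1 - (N : ℝ)) * (6 * r) * (η * r) ^ N) = r ^ 2 / 4 := by
  have h1 : (12 * r) ^ (1 - (N : ℝ)) = (12 : ℝ) ^ (1 - (N : ℝ)) * r ^ (1 - (N : ℝ)) :=
    Real.mul_rpow (by norm_num) hr.le
  have h2 : r ^ (1 - (N : ℝ)) * r ^ N = r := by
    rw [← Real.rpow_natCast, ← Real.rpow_add hr]
    have : (1 - (N : ℝ)) + N = 1 := by ring
    rw [this, Real.rpow_one]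
  have h3 : (12 : ℝ) ^ (1 - (N : ℝ)) ≠ 0 := (Real.rpow_pos_of_pos (by norm_num) _).ne'
  unfold C2
  rw [h1, mul_pow]
  have h4 : (12 : ℝ) ^ (1 - (N : ℝ)) * r ^ (1 - (N : ℝ)) * (6 * r) * (η ^ N * r ^ N) =
      ((12 : ℝ) ^ (1 - (N : ℝ)) * 6 * η ^ N) * ((r ^ (1 - (N : ℝ)) * r ^ N) * r) := by ring
  rw [h4, h2, ← mul_assoc, div_mul_cancel₀]
  · ring
  · positivity

theorem t_NEAR (hTON : S_TON) : S_NEAR := by
  intro N hN η κ' hη hη4 hκ'
  have hN1 : 1 ≤ N := by omega
  have hK1 := K1_pos N
  have hC2 := C2_pos N η hη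
  set κ : ℝ := κ' / (2 * C2 N η + K1 N) with hκdef
  have hκ : 0 < κ := by positivity
  refine ⟨κ, hκ, ?_⟩
  intro D μ F A ρ0 hD hμ hF hA hAne hρ0 hyp
  set ρ : ℝ := min ρ0 (4 / 11 * D) with hρdef
  have hρ : 0 < ρ := lt_min hρ0 (by positivity)
  have hρ1 : ρ ≤ ρ0 := min_le_left _ _
  have hρ2 : 11 * (ρ / 4) ≤ D := by
    have := min_le_right ρ0 (4 / 11 * D)
    linarith
  have hCfin : F univ * ENNReal.ofReal ((ρ / 4) ^ (1 - (N : ℝ))) * ENNReal.ofReal (D - ρ / 4) ≠ ⊤ :=
    ENNReal.mul_ne_top (ENNReal.mul_ne_top (measure_ne_top _ _) ENNReal.ofReal_ne_top)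
      ENNReal.ofReal_ne_top
  refine ⟨min (ρ / 2) (D / 12), (F univ * ENNReal.ofReal ((ρ / 4) ^ (1 - (N : ℝ))) *
    ENNReal.ofReal (D - ρ / 4)).toNNReal, lt_min (by positivity) (by positivity), ?_⟩
  rw [ENNReal.coe_toNNReal hCfin]
  intro y hr hr2
  obtain ⟨x, hx, hxy⟩ := hA.exists_infDist_eq_dist hAne y
  set r : ℝ := infDist y A with hrdef
  have hr3 : r < ρ / 2 := lt_of_lt_of_le hr2 (min_le_left _ _)
  have hr4 : r < D / 12 := lt_of_lt_of_le hr2 (min_le_right _ _)
  have hzx : ∀ z ∈ ball y (η * r), dist z x ≤ 5 / 4 * r := by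
    intro z hz
    rw [mem_ball] at hz
    have h1 := dist_triangle z y x
    have h2 : η * r ≤ 1 / 4 * r := mul_le_mul_of_nonneg_right hη4 hr.le
    linarith
  have hyp' : ∀ s : ℝ, 0 < s → s < ρ →
      F (closedBall x s) ≤ ENNReal.ofReal κ * μ (closedBall x (2 * s)) :=
    fun s hs hs2 => hyp x hx s hs (lt_of_lt_of_le hs2 hρ1)
  -- the threshold
  set m : ℝ≥0∞ := μ (closedBall x (4 * r)) with hm
  have hmfin : m ≠ ⊤ := measure_ne_top _ _
  set L : ℝ≥0∞ := m * ENNReal.ofReal ((12 * r) ^ (1 - (N : ℝ))) * ENNReal.ofReal (6 * r) with hL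
  have hLfin : L ≠ ⊤ := ENNReal.mul_ne_top (ENNReal.mul_ne_top hmfin ENNReal.ofReal_ne_top)
    ENNReal.ofReal_ne_top
  have hlow : ∀ z ∈ ball y (η * r), L ≤ P D μ z := fun z hz =>
    low hN1 D r μ x z hr (by linarith) (hzx z hz)
  have hFy : F (closedBall y r) ≤ ENNReal.ofReal κ * m := by
    have h1 : closedBall y r ⊆ closedBall x (2 * r) := by
      intro q hq
      rw [mem_closedBall] at hq ⊢
      have := dist_triangle q y x
      linarith
    have h2 := hyp' (2 * r) (by linarith) (by linarith)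
    have h3 : 2 * (2 * r) = 4 * r := by ring
    rw [h3] at h2
    exact (measure_mono h1).trans h2
  have hnear : 2 * ∫⁻ z in ball y (η * r), P (r / 2) F z ≤
      (ENNReal.ofReal (2 * κ * C2 N η) * L) * volume (ball y (η * r)) := by
    calc 2 * ∫⁻ z in ball y (η * r), P (r / 2) F z
        ≤ 2 * ((ENNReal.ofReal κ * m) *
          (volume (ball (0 : E N) 1) * ENNReal.ofReal (r ^ 2 / 4))) := by
          apply mul_le_mul' le_rfl
          exact (near_int hTON F hF y r η hr hη4).trans (mul_le_mul' hFy le_rfl)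
      _ = m * volume (ball (0 : E N) 1) * ENNReal.ofReal (2 * κ * (r ^ 2 / 4)) := by
          rw [ENNReal.ofReal_mul (by positivity), ENNReal.ofReal_mul (by norm_num),
            ENNReal.ofReal_ofNat]
          ring
      _ = m * volume (ball (0 : E N) 1) * (ENNReal.ofReal (2 * κ * C2 N η) *
            (ENNReal.ofReal ((12 * r) ^ (1 - (N : ℝ))) * ENNReal.ofReal (6 * r) *
              ENNReal.ofReal ((η * r) ^ N))) := by
          rw [← C2_eq N η r hη hr, ← ENNReal.ofReal_mul (by positivity),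
            ← ENNReal.ofReal_mul (by positivity), ← ENNReal.ofReal_mul (by positivity)]
          congr 2
          ring
      _ = _ := by
          rw [Measure.addHaar_ball_of_pos _ _ (by positivity : 0 < η * r), finrank_euclideanSpace_fin, hL]
          ring
  have hmk := markov y (η * r) (P (r / 2) F) (hTON N (r / 2) F hF).2
    (ENNReal.ofReal (2 * κ * C2 N η) * L) (ENNReal.mul_ne_top ENNReal.ofReal_ne_top hLfin) hnear
  refine hmk.trans (mul_le_mul' le_rfl (measure_mono ?_))
  rintro z ⟨hz, hz2⟩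
  refine ⟨hz, ?_⟩
  have hsplit : P D F z ≤ P (r / 2) F z +
      ∫⁻ s in Ico (r / 2) D, F (closedBall z s) * ENNReal.ofReal (s ^ (1 - (N : ℝ))) := by
    have h1 : Ioo 0 D ⊆ Ioo 0 (r / 2) ∪ Ico (r / 2) D := by
      intro t ht
      rcases lt_or_ge t (r / 2) with h | h
      · exact Or.inl ⟨ht.1, h⟩
      · exact Or.inr ⟨h, ht.2⟩
    exact (lintegral_mono_set h1).trans (lintegral_union_le _ _ _)
  have hfar := far_le hN1 D κ ρ r μ F x z hr hρ hρ2 (hzx z hz) hyp'
  calc P D F z ≤ P (r / 2) F z +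
      ∫⁻ s in Ico (r / 2) D, F (closedBall z s) * ENNReal.ofReal (s ^ (1 - (N : ℝ))) := hsplit
    _ ≤ ENNReal.ofReal (2 * κ * C2 N η) * P D μ z +
        (ENNReal.ofReal κ * (ENNReal.ofReal (K1 N) * P D μ z) +
        F univ * ENNReal.ofReal ((ρ / 4) ^ (1 - (N : ℝ))) * ENNReal.ofReal (D - ρ / 4)) :=
        add_le_add (hz2.trans (mul_le_mul' le_rfl (hlow z hz))) hfar
    _ = ENNReal.ofReal κ' * P D μ z +
        F univ * ENNReal.ofReal ((ρ / 4) ^ (1 - (N : ℝ))) * ENNReal.ofReal (D - ρ / 4) := by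
        rw [← add_assoc]
        congr 1
        rw [← mul_assoc, ← ENNReal.ofReal_mul hκ.le, ← add_mul,
          ← ENNReal.ofReal_add (by positivity) (by positivity)]
        congr 2
        rw [hκdef]
        field_simp

end Pool.Agent.Q223.VP
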